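import Mathlib

/-!
# Matrix products with chosen factors: boundedness without a uniform bound
-/

namespace Pool.Agent.Results.MP_8c8deb_an.NoUniformBound

/-- Real 3 × 3 matrices. -/
abbrev Mat := Matrix (Fin 3) (Fin 3) ℝ

/-- The products `P 0 = 1` and `P (n+1) = A n * B n * P n`, i.e.
`P n = A_n B_n ⋯ A_1 B_1` when the sequences are numbered from `1`. -/
def P (A B : ℕ → Mat) : ℕ → Mat
  | 0 => 1
  | n + 1 => A n * B n * P A B n

/-- First element of the set of given matrices. -/
def A1 : Mat := !![1, 0, 0; 0, 1, 0; 0, 0, 2]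

/-- Second element of the set of given matrices. -/
def A2 : Mat := !![2, -2, 0; 2, -2, 0; 2, -2, 0]

/-- The element of the set of chosen matrices that differs from the identity. -/
def b1 : Mat := !![1, 0, 0; 0, 0, 0; 0, 0, 0]

lemma b1A1b1 : b1 * (A1 * b1) = b1 := by
  ext i j; fin_cases i <;> fin_cases j <;> simp [b1, A1, Matrix.mul_apply, Fin.sum_univ_three]

lemma b1A2b1 : b1 * (A2 * b1) = (2:ℝ) • b1 := by
  ext i j; fin_cases i <;> fin_cases j <;> simp [b1, A2, Matrix.mul_apply, Fin.sum_univ_three]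

lemma A1b1_le (i j : Fin 3) : |(A1 * b1) i j| ≤ 2 := by
  fin_cases i <;> fin_cases j <;> simp [b1, A1, Matrix.mul_apply, Fin.sum_univ_three]

lemma A2b1_le (i j : Fin 3) : |(A2 * b1) i j| ≤ 2 := by
  fin_cases i <;> fin_cases j <;> simp [b1, A2, Matrix.mul_apply, Fin.sum_univ_three]

lemma A2_rows (X : Mat) (j : Fin 3) : (A2 * X) 0 j = (A2 * X) 1 j := by
  simp [A2, Matrix.mul_apply, Fin.sum_univ_three]

lemma A1_row0 (X : Mat) (j : Fin 3) : (A1 * X) 0 j = X 0 j := by
  simp [A1, Matrix.mul_apply, Fin.sum_univ_three]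

lemma A1_row1 (X : Mat) (j : Fin 3) : (A1 * X) 1 j = X 1 j := by
  simp [A1, Matrix.mul_apply, Fin.sum_univ_three]

lemma A1_row2 (X : Mat) (j : Fin 3) : (A1 * X) 2 j = 2 * X 2 j := by
  simp [A1, Matrix.mul_apply, Fin.sum_univ_three]

lemma A2_entry (X : Mat) (i j : Fin 3) : (A2 * X) i j = 2 * (X 0 j - X 1 j) := by
  fin_cases i <;> simp [A2, Matrix.mul_apply, Fin.sum_univ_three] <;> ring

lemma b1_row0 (X : Mat) (j : Fin 3) : (b1 * X) 0 j = X 0 j := by
  simp [b1, Matrix.mul_apply, Fin.sum_univ_three]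

lemma b1_row1 (X : Mat) (j : Fin 3) : (b1 * X) 1 j = 0 := by
  simp [b1, Matrix.mul_apply, Fin.sum_univ_three]

/-- Every sequence of given matrices admits a bounded choice. -/
lemma pointwise (A : ℕ → Mat) (hA : ∀ n, A n = A1 ∨ A n = A2) :
    ∃ B : ℕ → Mat, (∀ n, B n = 1 ∨ B n = b1) ∧ ∃ C : ℝ, ∀ n i j, |P A B n i j| ≤ C := by
  by_cases hfin : ∃ N, ∀ n, N ≤ n → A n ≠ A2
  · obtain ⟨N, hN⟩ := hfin
    refine ⟨fun _ => b1, fun _ => Or.inr rfl, 2 ^ N * 2, ?_⟩
    have key : ∀ n, ∃ m, m ≤ n ∧ m ≤ N ∧ b1 * P A (fun _ => b1) n = (2:ℝ) ^ m • b1 := by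
      intro n
      induction n with
      | zero => exact ⟨0, le_rfl, Nat.zero_le _, by simp [P]⟩
      | succ n ih =>
        obtain ⟨m, h1, h2, h3⟩ := ih
        rcases hA n with h | h
        · refine ⟨m, by omega, h2, ?_⟩
          show b1 * (A n * b1 * P A (fun _ => b1) n) = _
          rw [h, Matrix.mul_assoc, h3, Matrix.mul_smul, Matrix.mul_smul, b1A1b1]
        · have hlt : n < N := by
            by_contra hc
            exact hN n (not_lt.mp hc) h
          refine ⟨m + 1, by omega, by omega, ?_⟩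
          show b1 * (A n * b1 * P A (fun _ => b1) n) = _
          rw [h, Matrix.mul_assoc, h3, Matrix.mul_smul, Matrix.mul_smul, b1A2b1, smul_smul,
            pow_succ]
    intro n i j
    have h2N : (1:ℝ) ≤ 2 ^ N := one_le_pow₀ (by norm_num)
    cases n with
    | zero =>
      show |(1 : Mat) i j| ≤ _
      rw [Matrix.one_apply]
      split_ifs
      · rw [abs_one]; linarith
      · rw [abs_zero]; linarith
    | succ n =>
      obtain ⟨m, -, h2, h3⟩ := key n
      have hm : (2:ℝ) ^ m ≤ 2 ^ N := pow_le_pow_right₀ (by norm_num) h2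
      show |(A n * b1 * P A (fun _ => b1) n) i j| ≤ _
      rw [Matrix.mul_assoc, h3, Matrix.mul_smul, Matrix.smul_apply, smul_eq_mul, abs_mul,
        abs_of_pos (by positivity : (0:ℝ) < 2 ^ m)]
      have hb : |(A n * b1) i j| ≤ 2 := by
        rcases hA n with h | h
        · rw [h]; exact A1b1_le i j
        · rw [h]; exact A2b1_le i j
      exact mul_le_mul hm hb (abs_nonneg _) (by positivity)
  · push Not at hfin
    obtain ⟨t1, -, ht1⟩ := hfin 0
    have hex : ∃ t, t1 + 1 ≤ t ∧ A t = A2 := hfin (t1 + 1)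
    classical
    set t2 := Nat.find hex with ht2def
    have ht2 : t1 + 1 ≤ t2 ∧ A t2 = A2 := Nat.find_spec hex
    have hmin : ∀ t, t1 + 1 ≤ t → t < t2 → A t = A1 := by
      intro t h1 h2
      rcases hA t with h | h
      · exact h
      · exact absurd ⟨h1, h⟩ (Nat.find_min hex h2)
    let B : ℕ → Mat := fun n => if n ≤ t1 then b1 else 1
    have hB : ∀ n, B n = 1 ∨ B n = b1 := by
      intro n
      by_cases h : n ≤ t1
      · right; simp [B, h]
      · left; simp [B, h]
    have hrow : ∀ k, t1 + 1 + k ≤ t2 → ∀ j, P A B (t1 + 1 + k) 0 j = P A B (t1 + 1 + k) 1 j := by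
      intro k
      induction k with
      | zero =>
        intro _ j
        show (A t1 * B t1 * P A B t1) 0 j = (A t1 * B t1 * P A B t1) 1 j
        rw [ht1, Matrix.mul_assoc]
        exact A2_rows _ j
      | succ k ih =>
        intro hk j
        have hB1 : B (t1 + 1 + k) = 1 := by
          have : ¬ (t1 + 1 + k ≤ t1) := by omega
          simp [B, this]
        have hA1 : A (t1 + 1 + k) = A1 := hmin _ (by omega) (by omega)
        show (A (t1 + 1 + k) * B (t1 + 1 + k) * P A B (t1 + 1 + k)) 0 j =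
          (A (t1 + 1 + k) * B (t1 + 1 + k) * P A B (t1 + 1 + k)) 1 j
        rw [hB1, hA1, Matrix.mul_one, A1_row0, A1_row1]
        exact ih (by omega) j
    have hrow2 : ∀ j, P A B t2 0 j = P A B t2 1 j := by
      have := hrow (t2 - (t1 + 1)) (by omega)
      rwa [show t1 + 1 + (t2 - (t1 + 1)) = t2 by omega] at this
    have hzero : ∀ k, P A B (t2 + 1 + k) = 0 := by
      intro k
      induction k with
      | zero =>
        have hB1 : B t2 = 1 := by
          have : ¬ (t2 ≤ t1) := by omega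
          simp [B, this]
        show A t2 * B t2 * P A B t2 = 0
        rw [hB1, ht2.2, Matrix.mul_one]
        ext i j
        rw [A2_entry, hrow2 j]
        simp
      | succ k ih =>
        show A (t2 + 1 + k) * B (t2 + 1 + k) * P A B (t2 + 1 + k) = 0
        rw [ih, Matrix.mul_zero]
    refine ⟨B, hB, ∑ n ∈ Finset.range (t2 + 1), ∑ i, ∑ j, |P A B n i j|, ?_⟩
    intro n i j
    by_cases hn : n ≤ t2
    · have h1 : |P A B n i j| ≤ ∑ j', |P A B n i j'| :=
        Finset.single_le_sum (f := fun j' => |P A B n i j'|) (fun _ _ => abs_nonneg _)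
          (Finset.mem_univ j)
      have h2 : ∑ j', |P A B n i j'| ≤ ∑ i', ∑ j', |P A B n i' j'| :=
        Finset.single_le_sum (f := fun i' => ∑ j', |P A B n i' j'|)
          (fun _ _ => Finset.sum_nonneg fun _ _ => abs_nonneg _) (Finset.mem_univ i)
      have h3 : ∑ i', ∑ j', |P A B n i' j'| ≤
          ∑ n ∈ Finset.range (t2 + 1), ∑ i, ∑ j, |P A B n i j| :=
        Finset.single_le_sum (f := fun n => ∑ i', ∑ j', |P A B n i' j'|)
          (fun _ _ => Finset.sum_nonneg fun _ _ => Finset.sum_nonneg fun _ _ => abs_nonneg _)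
          (Finset.mem_range.mpr (by omega))
      linarith
    · have : P A B n = 0 := by
        have := hzero (n - (t2 + 1))
        rwa [show t2 + 1 + (n - (t2 + 1)) = n by omega] at this
      rw [this]
      simp only [Matrix.zero_apply, abs_zero]
      exact Finset.sum_nonneg fun _ _ => Finset.sum_nonneg fun _ _ =>
        Finset.sum_nonneg fun _ _ => abs_nonneg _

/-- For every bound there is a (periodic) sequence of given matrices which beats it. -/
lemma not_uniform (C : ℝ) :
    ∃ A : ℕ → Mat, (∀ n, A n = A1 ∨ A n = A2) ∧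
      ∀ B : ℕ → Mat, (∀ n, B n = 1 ∨ B n = b1) →
        ∃ n, 1 ≤ n ∧ ∃ i j, C < |P A B n i j| := by
  obtain ⟨k, hk⟩ := pow_unbounded_of_one_lt C (one_lt_two : (1:ℝ) < 2)
  classical
  refine ⟨fun n => if n % (k + 1) = 0 then A2 else A1, fun n => ?_, ?_⟩
  · by_cases h : n % (k + 1) = 0
    · right; simp [h]
    · left; simp [h]
  intro B hB
  set A : ℕ → Mat := fun n => if n % (k + 1) = 0 then A2 else A1 with hAdef
  by_contra hcon
  push Not at hcon
  -- the first column after the `j`-th occurrence of `A2`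
  have key : ∀ j : ℕ, ∀ i, P A B (j * (k + 1) + 1) i 0 = 2 ^ (j + 1) := by
    intro j
    induction j with
    | zero =>
      intro i
      have h0 : A 0 = A2 := by simp [hAdef]
      show (A (0 * (k+1)) * B (0 * (k+1)) * P A B (0 * (k+1))) i 0 = _
      rw [Nat.zero_mul, h0, Matrix.mul_assoc, A2_entry]
      show 2 * ((B 0 * (1 : Mat)) 0 0 - (B 0 * (1 : Mat)) 1 0) = _
      rcases hB 0 with h | h
      · rw [h]; simp
      · rw [h, b1_row0, b1_row1]; simp
    | succ j ih =>
      intro i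
      have step : ∀ i, i ≤ k → P A B (j * (k + 1) + 1 + i) 0 0 = 2 ^ (j + 1) ∧
          (P A B (j * (k + 1) + 1 + i) 1 0 = 0 ∨
            P A B (j * (k + 1) + 1 + i) 2 0 = 2 ^ (j + 1) * 2 ^ i) := by
        intro i
        induction i with
        | zero => intro _; exact ⟨ih 0, Or.inr (by rw [pow_zero, mul_one]; exact ih 2)⟩
        | succ i ihi =>
          intro hi
          obtain ⟨e0, e1⟩ := ihi (by omega)
          have hA' : A (j * (k + 1) + 1 + i) = A1 := by
            have : ¬ ((j * (k + 1) + 1 + i) % (k + 1) = 0) := by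
              rw [show j * (k + 1) + 1 + i = (1 + i) + (k + 1) * j by ring, Nat.add_mul_mod_self_left,
                Nat.mod_eq_of_lt (by omega)]
              omega
            simp [hAdef, this]
          have hP : P A B (j * (k + 1) + 1 + (i + 1)) =
              A1 * (B (j * (k + 1) + 1 + i) * P A B (j * (k + 1) + 1 + i)) := by
            show A (j * (k + 1) + 1 + i) * B (j * (k + 1) + 1 + i) * P A B (j * (k + 1) + 1 + i) = _
            rw [hA', Matrix.mul_assoc]
          rw [hP, A1_row0, A1_row1, A1_row2]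
          rcases hB (j * (k + 1) + 1 + i) with h | h
          · rw [h, Matrix.one_mul]
            refine ⟨e0, ?_⟩
            rcases e1 with e1 | e1
            · exact Or.inl e1
            · right; rw [e1, pow_succ (2:ℝ) i]; ring
          · rw [h, b1_row0, b1_row1]
            exact ⟨e0, Or.inl rfl⟩
      obtain ⟨e0, e1⟩ := step k le_rfl
      have e1' : P A B (j * (k + 1) + 1 + k) 1 0 = 0 := by
        rcases e1 with e1 | e1
        · exact e1
        · exfalso
          have h1 := hcon (j * (k + 1) + 1 + k) (by omega) 2 0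
          rw [e1, abs_of_pos (by positivity)] at h1
          have h2 : (1:ℝ) ≤ 2 ^ (j + 1) := one_le_pow₀ (by norm_num)
          have h3 : (2:ℝ) ^ k ≤ 2 ^ (j + 1) * 2 ^ k := by
            have : (0:ℝ) < 2 ^ k := by positivity
            nlinarith
          linarith
      have hidx : (j + 1) * (k + 1) = j * (k + 1) + 1 + k := by ring
      have hA' : A ((j + 1) * (k + 1)) = A2 := by
        simp [hAdef]
      show (A ((j + 1) * (k + 1)) * B ((j + 1) * (k + 1)) * P A B ((j + 1) * (k + 1))) i 0 = _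
      rw [hA', Matrix.mul_assoc, A2_entry]
      rcases hB ((j + 1) * (k + 1)) with h | h
      · rw [h, Matrix.one_mul, hidx, e0, e1', pow_succ (2:ℝ) (j + 1)]; ring
      · rw [h, b1_row0, b1_row1, hidx, e0, pow_succ (2:ℝ) (j + 1)]; ring
  obtain ⟨j, hj⟩ := pow_unbounded_of_one_lt C (one_lt_two : (1:ℝ) < 2)
  have h1 := hcon (j * (k + 1) + 1) (by omega) 0 0
  rw [key j 0, abs_of_pos (by positivity)] at h1
  have h2 : (2:ℝ) ^ j ≤ 2 ^ (j + 1) := pow_le_pow_right₀ (by norm_num) (by omega)
  linarith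

/-- There are sets `𝒜` and `ℬ` of two real `3 × 3` matrices each (with the identity in `ℬ`) such
that for every sequence `A` in `𝒜` some sequence `B` in `ℬ` makes the products
`A_n B_n ⋯ A_1 B_1` bounded, but no bound works for all sequences `A` at once. -/
theorem result :
    ∃ 𝒜 ℬ : Set (Matrix (Fin 3) (Fin 3) ℝ), 𝒜.Finite ∧ 𝒜.Nonempty ∧ ℬ.Finite ∧ ℬ.Nonempty ∧
      (∀ A : ℕ → Matrix (Fin 3) (Fin 3) ℝ, (∀ n, A n ∈ 𝒜) →
        ∃ B : ℕ → Matrix (Fin 3) (Fin 3) ℝ, (∀ n, B n ∈ ℬ) ∧
          ∃ C : ℝ, ∀ n i j, |P A B n i j| ≤ C) ∧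
      ∀ C : ℝ, ∃ A : ℕ → Matrix (Fin 3) (Fin 3) ℝ, (∀ n, A n ∈ 𝒜) ∧
        ∀ B : ℕ → Matrix (Fin 3) (Fin 3) ℝ, (∀ n, B n ∈ ℬ) →
          ∃ n, 1 ≤ n ∧ ∃ i j, C < |P A B n i j| := by
  refine ⟨{A1, A2}, {1, b1}, Set.toFinite _, ⟨A1, by simp⟩, Set.toFinite _, ⟨1, by simp⟩, ?_, ?_⟩
  · intro A hA
    obtain ⟨B, hB, C, hC⟩ := pointwise A (fun n => by simpa using hA n)
    exact ⟨B, fun n => by simpa using hB n, C, hC⟩
  · intro C
    obtain ⟨A, hA, h⟩ := not_uniform C
    exact ⟨A, fun n => by simpa using hA n, fun B hB => h B (fun n => by simpa using hB n)⟩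

end Pool.Agent.Results.MP_8c8deb_an.NoUniformBound
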